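import Pool.Agent.Lib.MP_5684f0_lc.J.Top
import Pool.Agent.Lib.MP_5684f0_lc.Q.LowH

/-! The statement of `HausdorffRank` implies the statement of `Hausdorff` and compares pairs. -/

namespace Pool.Agent.Lib.MP_5684f0_lc.J

open Filter Topology Set T T.Bor I Q.Low

/-- All bits of `g` are guessed from the state `(η, b)`. -/
def Bits (L : Lay) (η : Ordinal.{0}) (b : Bool) (g : Cs → Cs) : Prop :=
  ∀ a, Pr (Cl L {U | IsClopen U}) η b {x | g x a = true}

/-- Each bit of `g` is guessed from some state below `η`. -/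
def Low (L : Lay) (η : Ordinal.{0}) (g : Cs → Cs) : Prop :=
  ∀ a, ∃ δ < η, ∃ b, Pr (Cl L {U | IsClopen U}) δ b {x | g x a = true}

/-- The hypotheses on `f`. -/
def Hyp (L : Lay) (f π : Cs → Cs) (c : Cs) : Prop :=
  (∀ x y, leT c x → leT x y → leM (f x) (f y)) ∧
    (∀ x, leT c x → leT (π x) x ∧ leT x (π x)) ∧
    ∀ a, {x | f (π x) a = true} ∈ Cl .one (Cl L {U | IsClopen U})

/-- The statement of `HausdorffRank`. -/
def Rk : Prop :=
  ∀ (L : Lay) (f π : Cs → Cs) (c : Cs), Hyp L f π c → ∃ η < Ordinal.omega 1, ∃ b : Bool,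
    (∀ g, Low L η g → leCone g f) ∧ (∃ g, Bits L η b g ∧ leCone f g) ∧
      ((∀ g, Bits L η b g → leCone g f) ∨ ∃ g, Bits L η (!b) g ∧ leCone f g)

theorem rk : Rk := fun _ _ _ _ h => rank3 h.1 h.2.1 h.2.2

theorem Bits.low {L : Lay} {δ η : Ordinal.{0}} {b : Bool} {g : Cs → Cs} (h : Bits L δ b g)
    (h' : δ < η) : Low L η g := fun a => ⟨δ, h', b, h a⟩

theorem ha_of_rk (H : Rk) : Ha := fun L f π c hop hT hb δ _ b' => by
  obtain ⟨η, -, b, h1, ⟨g, h2, h3⟩, h4⟩ := H L f π c ⟨hop, hT, hb⟩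
  rcases lt_trichotomy δ η with h | rfl | h
  · exact Or.inl fun g hg => h1 g (Bits.low hg h)
  · rcases Bool.eq_or_eq_not b b' with rfl | rfl
    exacts [h4, Or.inr ⟨g, h2, h3⟩]
  · exact Or.inr ⟨g, fun a => pr_lt (Cl_dif L _ difK) (sub_Cl L _ isClopen_univ) h (h2 a), h3⟩

theorem cone_trans {f g h : Cs → Cs} (a : leCone f g) (b : leCone g h) : leCone f h := by
  obtain ⟨c, a⟩ := a
  obtain ⟨d, b⟩ := b
  obtain ⟨e, e1, e2⟩ := exists_upper2 c d
  refine ⟨e, fun x hx => ?_⟩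
  obtain ⟨ρ, r1, r2⟩ := a x (e1.trans hx)
  obtain ⟨σ, s1, s2⟩ := b x (e2.trans hx)
  exact ⟨_, tr_iff.2 (((tr_iff.1 s1).mono e2).comp ((tr_iff.1 r1).mono e1)),
    fun n => (r2 n).trans (s2 _)⟩

theorem Bits.cpl {L : Lay} {η : Ordinal.{0}} {b : Bool} {g : Cs → Cs} (h : Bits L η b g) :
    Bits L η (!b) (cpl g) := fun a => by
  convert (h a).compl using 1
  ext x
  simp [MP_5684f0_lc.cpl]

theorem Low.cpl {L : Lay} {η : Ordinal.{0}} {g : Cs → Cs} (h : Low L η g) : Low L η (cpl g) :=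
  fun a => (h a).imp fun _ h => ⟨h.1, h.2.elim fun b h => ⟨!b, by
    convert h.compl using 1
    ext x
    simp [MP_5684f0_lc.cpl]⟩⟩

theorem ps_of_rk (H : Rk) : PS := fun L f π c hop hT hb γ _ β => by
  obtain ⟨η, -, b, h1, ⟨g, h2, h3⟩, h4⟩ := H L f π c ⟨hop, hT, hb⟩
  have hd := Cl_dif L _ difK
  have ht : univ ∈ Cl L K := sub_Cl L _ isClopen_univ
  by_cases h : ∃ k g, Bits L (γ k) (!β k) g ∧ leCone f g
  · obtain ⟨k, g, a, d, e⟩ := h
    classical
    refine Or.inr ⟨fun j => if j = k then g else fun _ _ => !β j, fun j n => ?_, d,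
      fun x hx => ⟨k, by simpa using e x hx⟩⟩
    by_cases hj : j = k
    · simp only [hj, if_true]
      exact a n
    · simpa only [if_neg hj] using pr_const hd ht (γ j) (!β j)
  refine Or.inl fun g' hg => ?_
  have h5 : ∀ k, γ k < η ∨ (γ k = η ∧ β k = b) := fun k => by
    rcases lt_trichotomy (γ k) η with a | a | a
    · exact Or.inl a
    · refine Or.inr ⟨a, by_contra fun e => h ⟨k, g, ?_, h3⟩⟩
      rwa [a, show (!β k) = b by revert e; cases β k <;> cases b <;> simp]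
    · exact absurd ⟨k, g, fun n => pr_lt hd ht a (h2 n), h3⟩ h
  by_cases h6 : ∀ k, γ k < η
  · exact h1 g' fun n => (hg n).elim fun k e => ⟨_, h6 k, _, e⟩
  obtain ⟨k0, hk⟩ := not_forall.1 h6
  obtain ⟨e1, e2⟩ := (h5 k0).resolve_left hk
  refine h4.resolve_right (fun ⟨g, a⟩ => h ⟨k0, g, by rwa [e1, e2]⟩) g' fun n => ?_
  obtain ⟨k, e⟩ := hg n
  rcases h5 k with a | ⟨a, a'⟩
  exacts [pr_lt hd ht a e, a ▸ a' ▸ e]

/-- Two functions with the same code are comparable, unless both lie below both classes at `η` and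
strictly above the join of the classes below `η`. -/
theorem pair (H : Rk) {L : Lay} {f g π π' : Cs → Cs} {c c' : Cs} (hf : Hyp L f π c)
    (hg : Hyp L g π' c') : leCone g f ∨ leCone f (cpl g) ∨ ∃ η < Ordinal.omega 1,
      ∀ h, h = f ∨ h = g → (∀ k, Low L η k → leCone k h ∧ ¬ leCone h k) ∧
        ∀ b, ∃ k, Bits L η b k ∧ leCone h k := by
  obtain ⟨η, e, b, f1, ⟨k, f2, f3⟩, f4⟩ := H L f π c hf
  obtain ⟨η', -, b', g1, ⟨k', g2, g3⟩, g4⟩ := H L g π' c' hg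
  have up : ∀ {j}, leCone f j → leCone (cpl j) g → leCone f (cpl g) := fun a d =>
    cone_trans a (by simpa only [cpl_cpl] using cone_cpl d)
  rcases lt_trichotomy η η' with h | rfl | h
  · exact Or.inr (Or.inl (up f3 (g1 _ (f2.cpl.low h))))
  swap
  · exact Or.inl (cone_trans g3 (f1 _ (g2.low h)))
  have both : ∀ {h : Cs → Cs} {b : Bool}, (∃ k, Bits L η b k ∧ leCone h k) →
      (∃ k, Bits L η (!b) k ∧ leCone h k) → ∀ b, ∃ k, Bits L η b k ∧ leCone h k :=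
    fun {_ b} a d b' => by
      rcases Bool.eq_or_eq_not b' b with rfl | rfl
      exacts [a, d]
  rcases g4 with g4 | g4
  · rcases f4 with f4 | f4
    · rcases Bool.eq_or_eq_not b' b with rfl | rfl
      exacts [Or.inl (cone_trans g3 (f4 _ g2)), Or.inr (Or.inl (up f3 (g4 _ f2.cpl)))]
    · obtain ⟨j, j1, j2⟩ := both ⟨k, f2, f3⟩ f4 (!b')
      exact Or.inr (Or.inl (up j2 (g4 _ (by simpa only [Bool.not_not] using j1.cpl))))
  · rcases f4 with f4 | f4
    · obtain ⟨j, j1, j2⟩ := both ⟨k', g2, g3⟩ g4 b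
      exact Or.inl (cone_trans j2 (f4 _ j1))
    · by_cases a : ∃ j, Low L η j ∧ leCone f j
      · exact a.elim fun j a => Or.inr (Or.inl (up a.2 (g1 _ a.1.cpl)))
      by_cases d : ∃ j, Low L η j ∧ leCone g j
      · exact d.elim fun j d => Or.inl (cone_trans d.2 (f1 _ d.1))
      refine Or.inr (Or.inr ⟨η, e, ?_⟩)
      rintro _ (rfl | rfl)
      exacts [⟨fun j hj => ⟨f1 j hj, fun e => a ⟨j, hj, e⟩⟩, both ⟨k, f2, f3⟩ f4⟩,
        ⟨fun j hj => ⟨g1 j hj, fun e => d ⟨j, hj, e⟩⟩, both ⟨k', g2, g3⟩ g4⟩]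

end Pool.Agent.Lib.MP_5684f0_lc.J
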