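import Pool.Agent.Lib.MP_5684f0_lc.J.Rank
import Pool.Agent.Lib.MP_5684f0_lc.I.One

/-! A function above all classes below `η` is not below them piece by piece. -/

namespace Pool.Agent.Lib.MP_5684f0_lc.J

open Filter Topology Set PiNat G T T.Bor I
open scoped Ordinal

variable {C : Set (Set Cs)}

open Classical in
theorem pr_glue (hd : Dif C) (ht : univ ∈ C) {γ : Ordinal.{0}} {b : Bool} {W A : ℕ → Set Cs}
    (w1 : ∀ k, W k ∈ C) (w3 : ∀ k, Pr C γ b (A k)) :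
    Pr C γ b {y | if h : ∃ k, y ∈ W k then y ∈ A (Nat.find h) else b = true} := by
  choose st s1 s2 s3 s4 using w3
  let S : Cs → ℕ → St := fun y t => if h : ∃ k < t, y ∈ W k then st (Nat.find h) y t else (γ, b)
  have e1 : ∀ y (h : ∃ k, y ∈ W k) t, S y t = if Nat.find h < t then st (Nat.find h) y t
      else (γ, b) := fun y h t => by
    simp only [S]
    split_ifs with a b b
    · rw [show Nat.find a = Nat.find h from le_antisymm (Nat.find_min' a ⟨b, Nat.find_spec h⟩)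
        (Nat.find_min' h (Nat.find_spec a).2)]
    · exact absurd ((Nat.find_min' h (Nat.find_spec a).2).trans_lt (Nat.find_spec a).1) b
    · exact absurd ⟨_, b, Nat.find_spec h⟩ a
    · rfl
  have e2 : ∀ y, (¬ ∃ k, y ∈ W k) → ∀ t, S y t = (γ, b) := fun y h t =>
    dif_neg fun ⟨k, _, a⟩ => h ⟨k, a⟩
  refine ⟨S, fun t u => ?_, fun y => ?_⟩
  · have h2 := fin_un hd ht (B := fun k => (W k \ {y | ∃ j < k, y ∈ W j}) \
      (univ \ {y | st k y t = u})) (fun k => hd _ (hd _ (w1 k) _ (fin_un hd ht w1 k)) _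
        (hd _ ht _ (s1 k t u))) t
    have h3 : ∀ y, (∃ k < t, y ∈ W k) → (S y t = u ↔ ∃ k < t, y ∈ (W k \ {y | ∃ j < k, y ∈ W j}) \
        (univ \ {y | st k y t = u})) := fun y h => by
      simp only [S, dif_pos h, Set.mem_sdiff, mem_ofPred_eq, mem_univ, true_and, not_not]
      refine ⟨fun a => ⟨_, (Nat.find_spec h).1, ⟨(Nat.find_spec h).2, fun ⟨j, b, c⟩ =>
        Nat.find_min h b ⟨b.trans (Nat.find_spec h).1, c⟩⟩, a⟩, fun ⟨k, a, b, c⟩ => ?_⟩
      rwa [(Nat.find_eq_iff h).2 ⟨⟨a, b.1⟩, fun j hj d => b.2 ⟨j, hj, d.2⟩⟩]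
    by_cases h4 : (γ, b) = u
    · convert hd _ ht _ (hd _ (fin_un hd ht w1 t) _ h2) using 1
      ext y
      by_cases h : ∃ k < t, y ∈ W k
      · exact (h3 y h).trans ⟨fun a => ⟨trivial, fun c => c.2 a⟩, fun a => by_contra fun c => a.2 ⟨h, c⟩⟩
      · exact iff_of_true ((dif_neg h).trans h4) ⟨trivial, fun c => h c.1⟩
    · convert h2 using 1
      ext y
      by_cases h : ∃ k < t, y ∈ W k
      · exact h3 y h
      · exact iff_of_false (fun a => h4 ((dif_neg h).symm.trans a)) fun ⟨k, a, b⟩ => h ⟨k, a, b.1.1⟩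
  · by_cases h : ∃ k, y ∈ W k
    · simp only [e1 y h, mem_ofPred_eq, dif_pos h]
      refine ⟨if_neg (Nat.not_lt_zero _), fun t => ?_,
        ((eventually_gt_atTop (Nat.find h)).and (s4 _ y)).mono fun t a => by
          rw [if_pos a.1]; exact a.2⟩
      split_ifs with a c c
      · exact s3 _ y t
      · simpa only [s2] using down_le (s3 (Nat.find h) y) (Nat.zero_le (t + 1))
      · omega
      · exact Or.inl rfl
    · simp only [e2 y h, mem_ofPred_eq, dif_neg h]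
      exact ⟨trivial, fun _ => Or.inl trivial, .of_forall fun _ => trivial⟩

theorem pr_glue' (hd : Dif C) (ht : univ ∈ C) {γ : Ordinal.{0}} {b : Bool} {W A : ℕ → Set Cs}
    (w1 : ∀ k, W k ∈ C) (w3 : ∀ k, Pr C γ b (A k)) :
    ∃ B, Pr C γ b B ∧ ∀ y k, (∀ j, y ∈ W j ↔ j = k) → (y ∈ B ↔ y ∈ A k) :=
  ⟨_, pr_glue hd ht w1 w3, fun y k h => by
    have h3 : ∃ j, y ∈ W j := ⟨k, (h k).2 rfl⟩
    simp only [mem_ofPred_eq, dif_pos h3]
    rw [(h _).1 (@Nat.find_spec _ (fun _ => Classical.propDecidable _) h3)]⟩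

theorem not_pieces {L : Lay} {f : Cs → Cs} {η : ℕ → Ordinal.{0}} {b : ℕ → Bool}
    (h : ∀ k (g : Cs → Cs), (∀ a, Pr (Cl L K) (η k) (b k) {x | g x a = true}) → leCone g f)
    {G : ℕ → Cs → Cs} (hG : ∀ k a, Pr (Cl L K) (η k) (!b k) {x | G k x a = true}) {d : Cs}
    (hd : ∀ x, leT d x → ∃ k, leMc d (f x) (G k x)) : False := by
  classical
  let X : ℕ → ℕ → Set Cs := fun m j => {x | x (2 * Nat.pair m j) = true}
  choose B b1 b2 using fun k m => pr_glue' (Cl_dif L _ difK) (sub_Cl L _ isClopen_univ)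
    (γ := η k) (b := b k) (W := X m) (A := fun j => {y | G k y j = true}ᶜ)
    (fun j => sub_Cl L _ ((isClopen_discrete {true}).preimage (continuous_apply _)))
    fun j => by simpa only [Bool.not_not] using (hG k j).compl
  choose c hc using fun k => h k (fun x m => decide (x ∈ B k m)) fun m => by simpa using b1 k m
  obtain ⟨e0, h0⟩ := exists_upper c
  obtain ⟨e, e1, e2⟩ := exists_upper2 e0 d
  obtain ⟨ε, hε⟩ := U.exists_enum_rec e
  obtain ⟨x, hx⟩ : ∃ x, x = join (fun q => decide (q.unpair.2 = ε q.unpair.1 q.unpair.1)) e :=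
    ⟨_, rfl⟩
  have h1 : leT e x := hx ▸ leT_join_right _ e
  obtain ⟨k, σ, s1, s2⟩ := hd x (e2.trans h1)
  obtain ⟨ρ, r1, r2⟩ := hc k x (((h0 k).trans e1).trans h1)
  obtain ⟨m, hm⟩ := hε _ (((tr_iff.1 s1).mono e2).comp ((tr_iff.1 r1).mono ((h0 k).trans e1)))
  have h2 : ∀ j, x ∈ X m j ↔ j = ε m m := fun j => by simp [X, hx, join]
  have h4 := Bool.eq_iff_iff.1 ((r2 m).trans (s2 _))
  rw [show σ (ρ m) = ε m m from (congrFun hm m).symm, decide_eq_true_eq, b2 k m x _ h2] at h4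
  exact iff_not_self h4.symm

/-- The dichotomy for sequences of classes. -/
def PS : Prop :=
  ∀ (L : Lay) (f π : Cs → Cs) (c : Cs), (∀ x y, leT c x → leT x y → leM (f x) (f y)) →
    (∀ x, leT c x → leT (π x) x ∧ leT x (π x)) →
    (∀ a, {x | f (π x) a = true} ∈ Cl .one (Cl L K)) →
    ∀ η : ℕ → Ordinal.{0}, (∀ k, η k < ω₁) → ∀ b : ℕ → Bool,
    (∀ g : Cs → Cs, (∀ a, ∃ k, Pr (Cl L K) (η k) (b k) {x | g x a = true}) → leCone g f) ∨
      ∃ G : ℕ → Cs → Cs, (∀ k a, Pr (Cl L K) (η k) (!b k) {x | G k x a = true}) ∧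
        ∃ d, ∀ x, leT d x → ∃ k, leMc d (f x) (G k x)

theorem rank2 (H : PS) {L : Lay} {f π : Cs → Cs} {c : Cs}
    (hop : ∀ x y, leT c x → leT x y → leM (f x) (f y))
    (hT : ∀ x, leT c x → leT (π x) x ∧ leT x (π x))
    (hb : ∀ a, {x | f (π x) a = true} ∈ Cl .one (Cl L K)) :
    ∃ η < ω₁, ∃ b : Bool,
      (∀ g : Cs → Cs, (∀ a, ∃ δ < η, ∃ b', Pr (Cl L K) δ b' {x | g x a = true}) → leCone g f) ∧
      (∃ g : Cs → Cs, (∀ a, Pr (Cl L K) η b {x | g x a = true}) ∧ leCone f g) ∧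
      ((∀ g : Cs → Cs, (∀ a, Pr (Cl L K) η b {x | g x a = true}) → leCone g f) ∨
        ∃ g : Cs → Cs, (∀ a, Pr (Cl L K) η (!b) {x | g x a = true}) ∧ leCone f g) := by
  obtain ⟨η, h1, b, h2, h3⟩ := rank hop hT hb
  refine ⟨η, h1, b, fun g hg => ?_, h3⟩
  obtain ⟨δ0, d0, b0, -⟩ := hg 0
  obtain ⟨en, hen⟩ := (countable_lower h1).exists_eq_range ⟨(δ0, b0), d0⟩
  have h4 : ∀ k, (en k).1 < η := fun k => (hen ▸ mem_range_self k : en k ∈ {s : St | s.1 < η})
  rcases H L f π c hop hT hb (fun k => (en k).1) (fun k => (h4 k).trans h1) fun k => (en k).2 with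
    h | ⟨G, g1, d, g2⟩
  · refine h g fun a => ?_
    obtain ⟨δ, d, b', e⟩ := hg a
    obtain ⟨k, hk⟩ : (δ, b') ∈ range en := hen ▸ d
    exact ⟨k, by simpa only [hk] using e⟩
  · exact (not_pieces (fun k => h2 _ (h4 k) _) g1 g2).elim

end Pool.Agent.Lib.MP_5684f0_lc.J
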