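import Pool.Agent.Lib.MP_5684f0_lc.I.Main

/-! An order preserving function whose bits are limits of sets in `C` lies below some difference
class, so it has a rank. -/

namespace Pool.Agent.Lib.MP_5684f0_lc.J

open Filter Topology Set PiNat G T T.Bor I
open scoped Ordinal

variable {C : Set (Set Cs)} {J : SId} {B : Cs → Bool}

theorem bound (γ : ℕ → Ordinal.{0}) (h : ∀ n, γ n < ω₁) : ∃ η < ω₁, ∀ n, γ n < η :=
  ⟨⨆ n, γ n + 1, Ordinal.iSup_lt_omega_one fun n => succ_lt_omega_one (h n), fun n =>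
    (Order.lt_succ (γ n)).trans_le (Ordinal.le_iSup (fun n => γ n + 1) n)⟩

theorem pr_lt (hd : Dif C) (ht : univ ∈ C) {η η' : Ordinal.{0}} {b b' : Bool} {A : Set Cs}
    (h : η < η') (hA : Pr C η b A) : Pr C η' b' A := by
  obtain ⟨st, s1, s2⟩ := hA
  refine ⟨fun y t => Nat.casesOn t (η', b') (st y), fun t u => ?_, fun y => ⟨rfl, fun t => ?_, ?_⟩⟩
  · rcases t with _ | t
    · by_cases h : (η', b') = u
      · simpa [h] using ht
      · simpa [h] using hd _ ht _ ht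
    · exact s1 t u
  · rcases t with _ | t
    · exact Or.inr (show (st y 0).1 < η' by rw [(s2 y).1]; exact h)
    · exact (s2 y).2.1 t
  · obtain ⟨T, hT⟩ := eventually_atTop.1 (s2 y).2.2
    refine eventually_atTop.2 ⟨T + 1, fun t ht => ?_⟩
    obtain ⟨t, rfl⟩ : ∃ r, t = r + 1 := ⟨t - 1, by omega⟩
    exact hT t (by omega)

theorem E_mono {γ γ' : Ordinal.{0}} (h : γ ≤ γ') (b : Bool) :
    Le (E C J B γ b) (E C J B γ' b) := by
  rw [E]
  exact ext_le (le_E _ _) fun A hA => hA.elim (fun e => e ▸ bad_E _ _)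
    fun ⟨a, _, d, _, e⟩ => low_E (d.trans_le h) _ _ a e

/-- The union of the ideals of all countable states with a given guess. -/
def H (C : Set (Set Cs)) (J : SId) (B : Cs → Bool) (b : Bool) : SId where
  N A := ∃ γ < ω₁, (E C J B γ b).N A
  empty := ⟨0, Ordinal.omega_pos 1, SId.empty _⟩
  mono := fun h ⟨γ, a, c⟩ => ⟨γ, a, SId.mono _ h c⟩
  iUnion A h := by
    choose γ a c using h
    obtain ⟨η, e1, e2⟩ := bound γ a
    exact ⟨η, e1, SId.iUnion _ A fun n => E_mono (e2 n).le _ (c n)⟩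

theorem le_H (b : Bool) : Le J (H C J B b) := fun _ h => ⟨0, Ordinal.omega_pos 1, le_E _ _ h⟩

theorem low_H (b b' : Bool) {U : Set Cs} (hU : U ∈ C) (h : (H C J B b').N U) : (H C J B b).N U :=
  h.elim fun γ h => ⟨γ + 1, succ_lt_omega_one h.1, low_E (Order.lt_succ γ) _ _ hU h.2⟩

/-- Sets covered by pieces on which all bits are guessed from one countable state. -/
def covA (hd : Dif C) (ht : univ ∈ C) (f : Cs → Cs) : SId where
  N A := ∃ η < ω₁, (cov C f η true).N A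
  empty := ⟨0, Ordinal.omega_pos 1, SId.empty _⟩
  mono := fun h ⟨γ, a, c⟩ => ⟨γ, a, SId.mono _ h c⟩
  iUnion A h := by
    choose γ a c using h
    obtain ⟨η, e1, e2⟩ := bound γ a
    exact ⟨η, e1, SId.iUnion _ A fun n => (c n).imp fun _ h => ⟨h.1, fun l a d =>
      (h.2 l a d).imp fun _ h => ⟨pr_lt hd ht (e2 n) h.1, h.2⟩⟩⟩

theorem exists_bit2 (hd : Dif C) (ht : univ ∈ C) {f : Cs → Cs} (h : Le (covA hd ht f) J)
    (hJ : ¬ J.N univ) : ∃ a, ∀ b, ¬ (H C J (f · a) b).N univ := by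
  by_contra hc
  simp only [not_exists, not_forall, not_not] at hc
  choose b γ g1 g2 using hc
  choose M A h1 h2 h3 using fun a => proc_E hd ht (γ a) (b a) _ (g2 a)
  obtain ⟨η, e1, e2⟩ := bound γ g1
  refine hJ (union_compl_self (⋃ a, M a) ▸ J.union (J.iUnion M h1) (h ⟨η, e1,
    fun _ => (⋃ a, M a)ᶜ, subset_iUnion (fun _ : ℕ => (⋃ a, M a)ᶜ) 0, fun _ a _ =>
      ⟨_, pr_lt hd ht (e2 a) (h2 a), fun y hy => h3 a y trivial fun e => hy (mem_iUnion.2 ⟨a, e⟩)⟩⟩))

theorem obs2 {L : Lay} {g : Cs → Cs} (hg : ∀ a, {x | g x a = true} ∈ Cl .one (Cl L K)) :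
    ∃ u : Cs → ℕ → ℕ → ℕ, (∀ t, Ms L 0 C0 t _ fun y => u y t) ∧
      ∀ y m, ∀ᶠ t in atTop, u y t m = if g y m then 1 else 0 := by
  classical
  choose A s1 s2 using hg
  obtain ⟨hC, -⟩ := Good.ms L 0 good_C0
  choose tm hT using fun q : ℕ => Cl.ms L 0 good_C0
    (fun U (hU : IsClopen U) => ⟨0, fun y _ => mem_nhdsWithin_of_mem_nhds (by
      by_cases h : y ∈ U
      · filter_upwards [hU.2.mem_nhds h] with y' h' using by simp [h, h']
      · filter_upwards [hU.1.isOpen_compl.mem_nhds h] with y' h' using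
          propext (iff_of_false h' h))⟩) _ (s1 q.unpair.1 q.unpair.2)
  let φ : ℕ → ℕ → Cs → Prop := fun T q y => tm q ≤ T ∧ y ∈ A q.unpair.1 q.unpair.2
  let τ : ℕ → ℕ → ℕ := fun T m =>
    Nat.findGreatest (fun s => Nat.pair m s < T ∧ tm (Nat.pair m s) ≤ T) T
  let Fn : (ℕ → Prop) → ℕ → ℕ → ℕ := fun w T m => if w (Nat.pair m (τ T m)) then 1 else 0
  refine ⟨fun y T => Fn (fun q => if q < T then φ T q y else False) T,
    fun T => hC.fin (φ := φ T) (fun _ => False) (fun w => Fn w T) T fun q _ => ?_, fun y m => ?_⟩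
  · by_cases h : tm q ≤ T
    · exact hC.map (fun a => tm q ≤ T ∧ a) (hC.mono h (hT q))
    · simpa [φ, h] using hC.const T False
  · obtain ⟨s, hs⟩ := eventually_atTop.1 (s2 m y)
    filter_upwards [eventually_gt_atTop (Nat.pair m s + tm (Nat.pair m s) + s)] with T hT
    have h0 : Nat.pair m s < T ∧ tm (Nat.pair m s) ≤ T := ⟨by omega, by omega⟩
    have h1 := Nat.findGreatest_spec (P := fun s => Nat.pair m s < T ∧ tm (Nat.pair m s) ≤ T)
      (show s ≤ T by omega) h0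
    have h2 := hs _ (Nat.le_findGreatest
      (P := fun s => Nat.pair m s < T ∧ tm (Nat.pair m s) ≤ T) (show s ≤ T by omega) h0)
    have h3 : (fun q => if q < T then φ T q y else False) (Nat.pair m (τ T m)) ↔ g y m = true := by
      simp only [φ, τ, if_pos h1.1, h1.2, true_and, Nat.unpair_pair]
      exact h2
    by_cases h : g y m = true
    exacts [(if_pos (h3.2 h)).trans (if_pos h).symm, (if_neg (mt h3.1 h)).trans (if_neg h).symm]

theorem diag {L : Lay} {f : Cs → Cs} (hb : ∀ a, {x | f x a = true} ∈ Cl .one (Cl L K)) :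
    ∃ g : Cs → Cs, (∀ a, {x | g x a = true} ∈ Cl .one (Cl L K)) ∧ ¬ leCone g f := by
  classical
  have hd : Dif (Cl L K) := Cl_dif L _ difK
  have ht : univ ∈ Cl L K := sub_Cl L _ isClopen_univ
  choose A s1 s2 using hb
  let X : ℕ → ℕ → Set Cs := fun m k => {x | x (2 * Nat.pair m k) = true}
  have hX : ∀ m k, X m k ∈ Cl L K := fun m k =>
    sub_Cl L _ ((isClopen_discrete {true}).preimage (continuous_apply _))
  let D : ℕ → ℕ → Set Cs := fun m k => X m k \ {x | ∃ j < k, x ∈ X m j}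
  have hD : ∀ m k k' x, x ∈ D m k → x ∈ D m k' → k = k' := fun m k k' x a b => by
    rcases lt_trichotomy k k' with h | h | h
    exacts [absurd ⟨k, h, a.1⟩ b.2, h, absurd ⟨k', h, b.1⟩ a.2]
  refine ⟨fun x m => decide (∃ k, x ∈ D m k ∧ ¬ f x k = true), fun m =>
    ⟨fun s => {x | ∃ k < s, x ∈ D m k \ A k s}, fun s => fin_un hd ht (B := fun k => D m k \ A k s)
      (fun k => hd _ (hd _ (hX m k) _ (fin_un hd ht (hX m) k)) _ (s1 k s)) s, fun x => ?_⟩,
    fun ⟨d, h⟩ => ?_⟩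
  · simp only [mem_ofPred_eq, decide_eq_true_eq]
    by_cases h : ∃ k, x ∈ D m k
    · obtain ⟨k, hk⟩ := h
      filter_upwards [s2 k x, eventually_gt_atTop k] with s a b
      exact ⟨fun ⟨j, _, c⟩ => ⟨k, hk, fun e => c.2 (hD m k j x hk c.1 ▸ a.2 e)⟩,
        fun ⟨j, c, e⟩ => ⟨k, b, hk, fun e' => e (hD m k j x hk c ▸ a.1 e')⟩⟩
    · exact .of_forall fun s => iff_of_false (fun ⟨k, _, c⟩ => h ⟨k, c.1⟩) fun ⟨k, c, _⟩ => h ⟨k, c⟩
  obtain ⟨ε, hε⟩ := U.exists_enum_rec d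
  obtain ⟨ρ, r1, r2⟩ := h (join (fun q => decide (q.unpair.2 = ε q.unpair.1 q.unpair.1)) d)
    (leT_join_right _ d)
  obtain ⟨m, rfl⟩ := hε ρ (tr_iff.1 r1)
  generalize hx : join (fun q => decide (q.unpair.2 = ε q.unpair.1 q.unpair.1)) d = x at r2
  have e : ∀ k, x ∈ X m k ↔ k = ε m m := fun k => by simp [X, ← hx, join]
  have e' : x ∈ D m (ε m m) := ⟨(e _).2 rfl, fun ⟨j, a, b⟩ => a.ne ((e j).1 b)⟩
  have h1 := Bool.eq_iff_iff.1 (r2 m)
  simp only [decide_eq_true_eq] at h1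
  exact iff_not_self (show f x (ε m m) = true ↔ ¬ f x (ε m m) = true from
    ⟨fun a => (h1.2 a).elim fun k c => hD m _ _ x c.1 e' ▸ c.2, fun a => h1.1 ⟨_, e', a⟩⟩)

theorem below0 {L : Lay} {f : Cs → Cs} (hop : OP f)
    (hb : ∀ a, {x | f x a = true} ∈ Cl .one (Cl L K)) :
    ∃ η < ω₁, ∃ g : Cs → Cs, (∀ a, Pr (Cl L K) η true {x | g x a = true}) ∧ leCone f g := by
  classical
  have hf : Measurable f := measurable_pi_lambda _ fun n => measurable_to_bool (Cl_borel .one _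
    (Cl_borel L _ fun _ h => IsOpen.measurableSet (IsClopen.isOpen h)) _ (hb n))
  obtain ⟨ν, M, hν, hM, -, -, hT⟩ := tower L 0 based0
  by_cases hc : (covA hν.dif hν.top f).N univ
  · obtain ⟨η, hη, Y, h1, h2⟩ := hc
    have h3 : ∀ l a, ∃ A', Pr (Cl L K) η true A' ∧ ∀ y ∈ Y l, (f y a = true ↔ y ∈ A') := fun l a =>
      (Y l).eq_empty_or_nonempty.elim (fun e => ⟨_, pr_const hν.dif hν.top η _, by simp [e]⟩) (h2 l a)
    choose A a1 a2 using h3
    refine ⟨η, hη, fun y n => decide (y ∈ A n.unpair.1 n.unpair.2), fun n => by simpa using a1 _ _,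
      fun _ => false, fun y _ => ?_⟩
    obtain ⟨l, hl⟩ := mem_iUnion.1 (h1 (mem_univ y))
    exact ⟨_, tr_iff.2 (.of_computable (computable_pair_left l)), fun n =>
      Bool.eq_iff_iff.2 (by simpa using a2 l n y hl)⟩
  obtain ⟨g, hg, hn⟩ := diag hb
  refine absurd ?_ hn
  choose S S1 S2 using fun p : ℕ × Bool => gen_borel {x | f x p.1 ≠ p.2}
    (((measurable_pi_apply p.1).comp hf) (measurableSet_singleton p.2)).compl
  obtain ⟨F, f0, hF⟩ := exists_frc hc (Ω := ((fun μ J X => ext J {W ∈ μ | X.N W}) '' (M ∪ range ν) ∪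
    (fun A J _ => ext J {A}) '' ⋃ p, S p) ∪
      range fun (p : ℕ × Bool) J _ => H (Cl L K) J (f · p.1) p.2)
    ((((hM.union (countable_range _)).image _).union ((countable_iUnion S1).image _)).union
      (countable_range _))
  have k1 : ∀ μ ∈ M ∪ range ν, F.ClK μ := fun μ h => hF _ (Or.inl (Or.inl ⟨μ, h, rfl⟩))
  have k2 : ∀ a b, ∀ J ∈ range F.e, H (Cl L K) J (f · a) b ∈ range F.e :=
    fun a b J h => hF _ (Or.inr ⟨(a, b), rfl⟩) J h J h
  obtain ⟨u, u1, u2⟩ := obs2 hg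
  have := par hf hop hb (F.lip_id ν) (hT F fun μ h => k1 μ (Or.inl h)) F.pr_vw
    (V := fun a b => F.Fo {x | f x a ≠ b}) (fun a b => F.op_St (·.N {x | f x a ≠ b}))
    ((eventually_countable_forall.2 fun p => S2 p F fun A h J hJ =>
      hF _ (Or.inl (Or.inr ⟨A, mem_iUnion.2 ⟨p, h⟩, rfl⟩)) J hJ J hJ).mono fun y h a b h' =>
        by_contra fun c => F.excl h' ((h (a, b)).1 c))
    (v := fun i => decide (i = 1)) (s0 := 0) (lt := fun _ _ => True) (fun A hA ⟨y, hy⟩ => ?_) u1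
    fun y m => ⟨fun _ => Or.inr trivial, fun _ => Or.inr trivial, u2 y m⟩
  · convert this using 3 with y m
    cases g y m <;> simp
  obtain ⟨l, hl⟩ := (ev_cyl (hA.mem_nhds hy)).exists
  obtain ⟨a, ha⟩ := exists_bit2 hν.dif hν.top
    (f0 ▸ F.St_mono y (Nat.zero_le l) : Le (covA hν.dif hν.top f) _) (F.inv y l).1.1
  obtain ⟨x0, x1, x2⟩ := F.ext1 y l (k2 a (decide (0 = 1)) _ (F.inv y l).1.2) (ha _) (le_H _)
  refine ⟨cylinder y l, _, cyl_open y l, hl, a, fun i => {x | ∃ n,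
    Le (H (Cl L K) (F.St y l) (f · a) (decide (i = 1))) (F.St x n)}, x0, l + 1, rfl,
    fun x hx => ⟨cyl_trans (cylinder_anti _ l.le_succ hx) x1, l + 1, by
      rwa [F.St_congr hx _ le_rfl]⟩, fun i => ⟨F.op_St _, fun x ⟨n, h⟩ =>
        ⟨n, h ⟨0, Ordinal.omega_pos 1, bad_E _ _⟩⟩⟩, fun i j _ x ⟨hx, n0, hn⟩ M => ?_⟩
  obtain ⟨x', b1, b2⟩ := F.mix hν (fun n => k1 _ (Or.inr (mem_range_self n))) x x l
    (H := fun n => if n < n0 then F.St y l else H (Cl L K) (F.St y l) (f · a) (decide (j = 1)))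
    (fun n => by
      split_ifs
      exacts [fun _ a => a, le_H _, by omega, fun _ a => a])
    (by
      rw [F.St_congr hx l le_rfl]
      split_ifs
      exacts [fun _ a => a, le_H _])
    (fun n => by
      split_ifs
      exacts [(F.inv y l).1.2, k2 a _ _ (F.inv y l).1.2])
    fun n h1 U hU h2 => by
      split_ifs at h2
      · exact F.St_mono x (by omega) (F.St_congr hx l le_rfl ▸ h2)
      · exact F.St_mono x (by omega) (hn (low_H _ _ hU h2))
  refine ⟨x', ⟨cyl_trans b1 hx, max l n0 + 1, ?_⟩,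
    F.mix' b1 (self_mem_cylinder _ _) (fun n h => (b2 n h).2) M⟩
  simpa only [if_neg (le_max_right l n0).not_gt] using (b2 _ (le_max_left l n0)).1

theorem rank {L : Lay} {f π : Cs → Cs} {c : Cs}
    (hop : ∀ x y, leT c x → leT x y → leM (f x) (f y))
    (hT : ∀ x, leT c x → leT (π x) x ∧ leT x (π x))
    (hb : ∀ a, {x | f (π x) a = true} ∈ Cl .one (Cl L K)) :
    ∃ η < ω₁, ∃ b : Bool,
      (∀ δ < η, ∀ (b' : Bool) (g : Cs → Cs),
        (∀ a, Pr (Cl L K) δ b' {x | g x a = true}) → leCone g f) ∧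
      (∃ g : Cs → Cs, (∀ a, Pr (Cl L K) η b {x | g x a = true}) ∧ leCone f g) ∧
      ((∀ g : Cs → Cs, (∀ a, Pr (Cl L K) η b {x | g x a = true}) → leCone g f) ∨
        ∃ g : Cs → Cs, (∀ a, Pr (Cl L K) η (!b) {x | g x a = true}) ∧ leCone f g) := by
  have hc : ∀ x, leT c (π (join x c)) := fun x =>
    (leT_join_right x c).trans (hT _ (leT_join_right x c)).2
  obtain ⟨η0, h0, g0, g1, g2⟩ := below0 (L := L) (f := fun x => f (π (join x c)))
    (fun x y hxy => hop _ _ (hc x) ((hT _ (leT_join_right x c)).1.trans ((join_leT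
      (hxy.trans (leT_join_left y c)) (leT_join_right y c)).trans (hT _ (leT_join_right y c)).2)))
    (fun a => N.cl_pre (φ := fun x => join x c) .one (N.cl_pre L (C := K)
      fun _ (h : IsClopen _) => h.preimage (continuous_join c)) _ (hb a))
  obtain ⟨η, ⟨h1, b, h2⟩, h3⟩ := (wellFounded_lt (α := Ordinal.{0})).has_min
    {η | η < ω₁ ∧ ∃ b, ∃ g : Cs → Cs, (∀ a, Pr (Cl L K) η b {x | g x a = true}) ∧ leCone f g}
    ⟨η0, h0, true, g0, g1, leCone_of (c' := c) g2 (fun x hx => hop _ _ hx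
      ((leT_join_left x c).trans (hT _ (leT_join_right x c)).2))
      fun _ _ => ⟨id, Computable.id, fun _ => rfl⟩⟩
  exact ⟨η, h1, b, fun δ hδ b' => (pure hop hT hb (hδ.trans h1) b').resolve_right
    fun h => h3 δ ⟨hδ.trans h1, _, h⟩ hδ, h2, pure hop hT hb h1 b⟩

end Pool.Agent.Lib.MP_5684f0_lc.J
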