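import Pool.Agent.Lib.MP_5684f0_lc.J.Join
import Pool.Agent.Lib.MP_5684f0_lc.V.Main

/-! The rank of an order preserving function. -/

namespace Pool.Agent.Lib.MP_5684f0_lc.J

open T T.Bor I
open scoped Ordinal

theorem rank3 {L : Lay} {f π : Cs → Cs} {c : Cs}
    (hop : ∀ x y, leT c x → leT x y → leM (f x) (f y))
    (hT : ∀ x, leT c x → leT (π x) x ∧ leT x (π x))
    (hb : ∀ a, {x | f (π x) a = true} ∈ Cl .one (Cl L K)) :
    ∃ η < ω₁, ∃ b : Bool,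
      (∀ g : Cs → Cs, (∀ a, ∃ δ < η, ∃ b', Pr (Cl L K) δ b' {x | g x a = true}) → leCone g f) ∧
      (∃ g : Cs → Cs, (∀ a, Pr (Cl L K) η b {x | g x a = true}) ∧ leCone f g) ∧
      ((∀ g : Cs → Cs, (∀ a, Pr (Cl L K) η b {x | g x a = true}) → leCone g f) ∨
        ∃ g : Cs → Cs, (∀ a, Pr (Cl L K) η (!b) {x | g x a = true}) ∧ leCone f g) :=
  rank2 (fun _ _ _ _ h1 h2 h3 => V.pureSeq h1 h2 h3) hop hT hb

end Pool.Agent.Lib.MP_5684f0_lc.J
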